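import Mathlib
import Pool.Agent.MP_9a65c4_lc.PR
import Pool.Agent.MP_9a65c4_lc.Functional

section

namespace Pool.Agent.MP_9a65c4_lc

open Nat.Partrec (Code)
open Classical

noncomputable section

/-- `a` is enumerated in the `e`-th r.e. set by stage `s`. -/
def ax (e s a : ℕ) : Prop :=
  e < s ∧ ∃ x, x ∈ Code.evaln s (Denumerable.ofNat Code e) a

theorem ax_lt {e s a : ℕ} (h : ax e s a) : a < s := by
  obtain ⟨_, x, hx⟩ := h
  exact Code.evaln_bound hx

theorem ax_mono {e s t a : ℕ} (hst : s ≤ t) (h : ax e s a) : ax e t a := by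
  obtain ⟨h1, x, hx⟩ := h
  exact ⟨h1.trans_le hst, x, Code.evaln_mono hst hx⟩

theorem ax_univ {P : ℕ → Prop} (hP : REPred P) : ∃ e, ∀ a, P a ↔ ∃ s, ax e s a := by
  have h1 : Partrec fun a => (Part.assert (P a) fun _ => Part.some ()).map fun _ => 0 :=
    Partrec.map hP (Computable.const 0).to₂
  obtain ⟨c, hc⟩ := Code.exists_code.mp (Partrec.nat_iff.mp h1)
  refine ⟨Encodable.encode c, fun a => ?_⟩
  have h2 : P a ↔ ∃ x, x ∈ c.eval a := by
    rw [hc]
    simp
  rw [h2]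
  constructor
  · rintro ⟨x, hx⟩
    obtain ⟨k, hk⟩ := Code.evaln_complete.mp hx
    refine ⟨max k (Encodable.encode c + 1), by omega, x, ?_⟩
    rw [Denumerable.ofNat_encode]
    exact Code.evaln_mono (le_max_left _ _) hk
  · rintro ⟨s, _, x, hx⟩
    rw [Denumerable.ofNat_encode] at hx
    exact ⟨x, Code.evaln_sound hx⟩

theorem pp_ax {α : Type*} [Primcodable α] {f g h : α → ℕ} (hf : Primrec f) (hg : Primrec g)
    (hh : Primrec h) : PrimrecPred fun a => ax (f a) (g a) (h a) := by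
  refine (pp_lt hf hg).and ?_
  have h1 : Primrec fun a => Code.evaln (g a) (Denumerable.ofNat Code (f a)) (h a) :=
    Code.primrec_evaln.comp ((hg.pair ((Primrec.ofNat Code).comp hf)).pair hh)
  refine (pp_eq h1 (Primrec.const none)).not.of_eq fun a => ?_
  cases Code.evaln (g a) (Denumerable.ofNat Code (f a)) (h a) <;> simp

def aN (a : ℕ) : ℕ := (Nat.unpair a).1
def aV (a : ℕ) : ℕ := (Nat.unpair (Nat.unpair a).2).1
def aU (a : ℕ) : List ℕ :=
  Denumerable.ofNat (List ℕ) (Nat.unpair (Nat.unpair (Nat.unpair a).2).2).1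
def aJ (a : ℕ) : List ℕ :=
  Denumerable.ofNat (List ℕ) (Nat.unpair (Nat.unpair (Nat.unpair a).2).2).2

theorem exists_code4 (n v : ℕ) (U J : List ℕ) :
    ∃ a, aN a = n ∧ aV a = v ∧ aU a = U ∧ aJ a = J :=
  ⟨Nat.pair n (Nat.pair v (Nat.pair (Encodable.encode U) (Encodable.encode J))), by
    simp [aN, aV, aU, aJ]⟩

@[fun_prop] theorem pr_aN : Primrec aN := by unfold aN; fun_prop
@[fun_prop] theorem pr_aV : Primrec aV := by unfold aV; fun_prop
@[fun_prop] theorem pr_aU : Primrec aU := by unfold aU; fun_prop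
@[fun_prop] theorem pr_aJ : Primrec aJ := by unfold aJ; fun_prop

def inE (s x : ℕ) : Prop := ax (aN x) s x

def avail (e s : ℕ) (U : List ℕ) (a : ℕ) : Prop := ax e s a ∧ ∀ x ∈ aU a, x ∈ U

def incons (e s : ℕ) (U : List ℕ) : Prop :=
  ∃ a < s, ∃ b < s, avail e s U a ∧ avail e s U b ∧ aN a = aN b ∧ ¬ aV a = aV b

def tot (e s : ℕ) (U : List ℕ) (l : ℕ) : Prop :=
  ∀ n < l + 1, ∃ a < s, avail e s U a ∧ aN a = n

def free (s : ℕ) (D : List ℕ) (l : ℕ) : List ℕ :=
  (List.range s).filter fun x => decide (¬ x ∈ D ∧ ¬ (x < l ∧ inE s x))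

def nstep (e s : ℕ) (D : List ℕ) (st : ℕ × List ℕ) : ℕ × List ℕ :=
  if ∃ x ∈ st.2, x ∈ D then (0, [])
  else if incons e s st.2 then st
  else if incons e s (free s D 0) then (0, free s D 0)
  else if tot e s (free s D st.1) st.1 then (st.1 + 1, free s D st.1)
  else st

def newN (s : ℕ) (S : List ℕ × List (ℕ × List ℕ)) : List (ℕ × List ℕ) :=
  (List.range s).map fun e => nstep e s S.1 (S.2.getD e (0, []))

def step (s : ℕ) (S : List ℕ × List (ℕ × List ℕ)) : List ℕ × List (ℕ × List ℕ) :=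
  (S.1 ++ (List.range s).filter fun x => decide (inE s x ∧ (∀ y ∈ S.1, ¬ aN y = aN x) ∧
      ∀ e < aN x, ¬ x ∈ ((newN s S).getD e (0, [])).2), newN s S)

def state (s : ℕ) : List ℕ × List (ℕ × List ℕ) :=
  Nat.rec ([], []) (fun s S => step s S) s

def Dl (s : ℕ) : List ℕ := (state s).1
def Ns (s e : ℕ) : ℕ × List ℕ := (state s).2.getD e (0, [])

section prim
variable {α : Type*} [Primcodable α]

theorem pp_inE {f g : α → ℕ} (hf : Primrec f) (hg : Primrec g) :
    PrimrecPred fun a => inE (f a) (g a) := pp_ax (by fun_prop) hf hg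

theorem pp_avail {f g k : α → ℕ} {U : α → List ℕ} (hf : Primrec f) (hg : Primrec g)
    (hU : Primrec U) (hk : Primrec k) : PrimrecPred fun a => avail (f a) (g a) (U a) (k a) :=
  (pp_ax hf hg hk).and (pp_all_mem (by fun_prop) (pp_mem (by fun_prop) (by fun_prop)))

theorem pp_incons {f g : α → ℕ} {U : α → List ℕ} (hf : Primrec f) (hg : Primrec g)
    (hU : Primrec U) : PrimrecPred fun a => incons (f a) (g a) (U a) :=
  pp_ex_lt hg (pp_ex_lt (by fun_prop)
    ((pp_avail (by fun_prop) (by fun_prop) (by fun_prop) (by fun_prop)).and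
    ((pp_avail (by fun_prop) (by fun_prop) (by fun_prop) (by fun_prop)).and
    ((pp_eq (by fun_prop) (by fun_prop)).and (pp_eq (by fun_prop) (by fun_prop)).not))))

theorem pp_tot {f g l : α → ℕ} {U : α → List ℕ} (hf : Primrec f) (hg : Primrec g)
    (hU : Primrec U) (hl : Primrec l) : PrimrecPred fun a => tot (f a) (g a) (U a) (l a) :=
  pp_all_lt (by fun_prop) (pp_ex_lt (by fun_prop)
    ((pp_avail (by fun_prop) (by fun_prop) (by fun_prop) (by fun_prop)).and
    (pp_eq (by fun_prop) (by fun_prop))))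

@[fun_prop] theorem pr_free {f l : α → ℕ} {D : α → List ℕ} (hf : Primrec f) (hD : Primrec D)
    (hl : Primrec l) : Primrec fun a => free (f a) (D a) (l a) :=
  pr_filter (by fun_prop) ((pp_mem (by fun_prop) (by fun_prop)).not.and
    ((pp_lt (by fun_prop) (by fun_prop)).and (pp_inE (by fun_prop) (by fun_prop))).not)

@[fun_prop] theorem pr_nstep {f g : α → ℕ} {D : α → List ℕ} {st : α → ℕ × List ℕ}
    (hf : Primrec f) (hg : Primrec g) (hD : Primrec D) (hst : Primrec st) :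
    Primrec fun a => nstep (f a) (g a) (D a) (st a) := by
  unfold nstep
  refine Primrec.ite (pp_ex_mem (by fun_prop) (pp_mem (by fun_prop) (by fun_prop)))
    (by fun_prop) ?_
  refine Primrec.ite (pp_incons hf hg (by fun_prop)) hst ?_
  refine Primrec.ite (pp_incons hf hg (by fun_prop)) (by fun_prop) ?_
  exact Primrec.ite (pp_tot hf hg (by fun_prop) (by fun_prop)) (by fun_prop) hst

@[fun_prop] theorem pr_newN {f : α → ℕ} {S : α → List ℕ × List (ℕ × List ℕ)}
    (hf : Primrec f) (hS : Primrec S) : Primrec fun a => newN (f a) (S a) := by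
  unfold newN
  exact pr_map (by fun_prop) (by fun_prop)

theorem pr_step {f : α → ℕ} {S : α → List ℕ × List (ℕ × List ℕ)}
    (hf : Primrec f) (hS : Primrec S) : Primrec fun a => step (f a) (S a) := by
  unfold step
  refine pr_pair (pr_append (by fun_prop) (pr_filter (by fun_prop) ?_)) (by fun_prop)
  refine (pp_inE (by fun_prop) (by fun_prop)).and (PrimrecPred.and ?_ ?_)
  · exact pp_all_mem (by fun_prop) (pp_eq (by fun_prop) (by fun_prop)).not
  · exact pp_all_lt (by fun_prop) (pp_mem (by fun_prop) (by fun_prop)).not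

theorem pr_state : Primrec state :=
  Primrec.nat_rec₁ _ (pr_step Primrec.fst Primrec.snd)

@[fun_prop] theorem pr_Dl : Primrec Dl := Primrec.fst.comp pr_state

@[fun_prop] theorem pr_Ns {f g : α → ℕ} (hf : Primrec f) (hg : Primrec g) :
    Primrec fun a => Ns (f a) (g a) :=
  pr_getD _ (Primrec.snd.comp (pr_state.comp hf)) hg

end prim

theorem Dl_zero : Dl 0 = [] := rfl

theorem Ns_zero (e : ℕ) : Ns 0 e = (0, []) := rfl

theorem state_length (s : ℕ) : (state s).2.length ≤ s := by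
  cases s with
  | zero => simp [state]
  | succ s => simp [state, step, newN]

theorem Ns_succ (s e : ℕ) : Ns (s + 1) e = nstep e s (Dl s) (Ns s e) := by
  by_cases h : e < s
  · simp [Ns, state, step, newN, Dl, h]
  · have h1 : Ns (s + 1) e = (0, []) := by
      simp [Ns, state, step, newN, not_lt.mp h]
    have h2 : Ns s e = (0, []) := by
      have := state_length s
      simp only [Ns, List.getD_eq_getElem?_getD]
      rw [List.getElem?_eq_none (by omega)]
      rfl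
    have h3 : ∀ U, ¬ incons e s U := by
      rintro U ⟨a, _, b, _, ha, _⟩
      exact h ha.1.1
    have h4 : ∀ U l, ¬ tot e s U l := by
      intro U l ht
      obtain ⟨a, _, ha, _⟩ := ht 0 (by omega)
      exact h ha.1.1
    rw [h1, h2]
    simp [nstep, h3, h4]

theorem mem_Dl_succ (s x : ℕ) : x ∈ Dl (s + 1) ↔ x ∈ Dl s ∨
    (inE s x ∧ (∀ y ∈ Dl s, ¬ aN y = aN x) ∧ ∀ e < aN x, ¬ x ∈ (Ns (s + 1) e).2) := by
  have : Dl (s + 1) = Dl s ++ (List.range s).filter fun x => decide (inE s x ∧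
      (∀ y ∈ Dl s, ¬ aN y = aN x) ∧ ∀ e < aN x, ¬ x ∈ (Ns (s + 1) e).2) := rfl
  rw [this, List.mem_append, List.mem_filter, List.mem_range, decide_eq_true_iff]
  constructor
  · rintro (h | h)
    · exact Or.inl h
    · exact Or.inr h.2
  · rintro (h | h)
    · exact Or.inl h
    · exact Or.inr ⟨ax_lt h.1, h⟩

theorem mem_free {s l x : ℕ} {D : List ℕ} :
    x ∈ free s D l ↔ x < s ∧ x ∉ D ∧ ¬ (x < l ∧ inE s x) := by
  simp only [free, List.mem_filter, List.mem_range, decide_eq_true_iff]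

end

end Pool.Agent.MP_9a65c4_lc

end

section

namespace Pool.Agent.MP_9a65c4_lc

open Filter Classical

def DD : Set ℕ := {x | ∃ s, x ∈ Dl s}
def EE : Set ℕ := {x | ∃ s, inE s x}
/-- `a` is an instruction of the `e`-th operator that applies to the set `Z`. -/
def Op (e : ℕ) (Z : Set ℕ) (a : ℕ) : Prop := (∃ s, ax e s a) ∧ ∀ x ∈ aU a, x ∈ Z

theorem Dl_mono {s t x : ℕ} (hst : s ≤ t) (h : x ∈ Dl s) : x ∈ Dl t := by
  induction hst with
  | refl => exact h
  | step _ ih => exact (mem_Dl_succ _ _).mpr (Or.inl ih)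

theorem inE_mono {s t x : ℕ} (hst : s ≤ t) (h : inE s x) : inE t x := ax_mono hst h

theorem DD_subset_EE : DD ⊆ EE := by
  rintro x ⟨s, hs⟩
  induction s with
  | zero => simp [Dl_zero] at hs
  | succ s ih =>
    rcases (mem_Dl_succ _ _).mp hs with h | h
    · exact ih h
    · exact ⟨s, h.1⟩

theorem avail_mono {e s t a : ℕ} {U V : List ℕ} (hst : s ≤ t) (hUV : ∀ x ∈ U, x ∈ V)
    (h : avail e s U a) : avail e t V a :=
  ⟨ax_mono hst h.1, fun x hx => hUV x (h.2 x hx)⟩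

theorem incons_mono {e s t : ℕ} {U : List ℕ} (hst : s ≤ t) (h : incons e s U) : incons e t U := by
  obtain ⟨a, ha, b, hb, h1, h2, h3⟩ := h
  exact ⟨a, ha.trans_le hst, b, hb.trans_le hst, avail_mono hst (fun _ h => h) h1,
    avail_mono hst (fun _ h => h) h2, h3⟩

theorem col_stable (e : ℕ) : ∀ᶠ s in atTop, ∀ x, aN x ≤ e → x ∈ Dl (s + 1) → x ∈ Dl s := by
  have h : ∀ j, ∀ᶠ s in atTop, ∀ x, aN x = j → x ∈ Dl (s + 1) → x ∈ Dl s := by
    intro j
    by_cases hj : ∃ t y, y ∈ Dl t ∧ aN y = j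
    · obtain ⟨t, y, hy, hyj⟩ := hj
      filter_upwards [eventually_ge_atTop t] with s hs x hx hxs
      rcases (mem_Dl_succ _ _).mp hxs with h | h
      · exact h
      · exact absurd (hyj.trans hx.symm) (h.2.1 y (Dl_mono hs hy))
    · exact Eventually.of_forall fun s x hx hxs => absurd ⟨s + 1, x, hxs, hx⟩ hj
  have h2 : ∀ᶠ s in atTop, ∀ j ∈ Finset.range (e + 1), ∀ x, aN x = j →
      x ∈ Dl (s + 1) → x ∈ Dl s := (eventually_all_finset _).mpr fun j _ => h j
  filter_upwards [h2] with s hs x hx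
  exact hs _ (Finset.mem_range.mpr (by omega)) x rfl

theorem nstep_disj {e s x : ℕ} {D : List ℕ} {st : ℕ × List ℕ} (h : x ∈ (nstep e s D st).2) :
    x ∉ D := by
  unfold nstep at h
  split_ifs at h with h1 h2 h3 h4
  · simp at h
  · exact fun hx => h1 ⟨x, h, hx⟩
  · exact (mem_free.mp h).2.1
  · exact (mem_free.mp h).2.1
  · exact fun hx => h1 ⟨x, h, hx⟩

theorem Ns_bound {e s x : ℕ} (h : x ∈ (Ns s e).2) : x < s := by
  induction s with
  | zero => simp [Ns_zero] at h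
  | succ s ih =>
    rw [Ns_succ] at h
    unfold nstep at h
    split_ifs at h with h1 h2 h3 h4
    · simp at h
    · exact (ih h).trans (Nat.lt_succ_self s)
    · exact (mem_free.mp h).1.trans (Nat.lt_succ_self s)
    · exact (mem_free.mp h).1.trans (Nat.lt_succ_self s)
    · exact (ih h).trans (Nat.lt_succ_self s)

theorem Ns_inv {e s n : ℕ} (h : n < (Ns s e).1) : ∃ a, avail e s (Ns s e).2 a ∧ aN a = n := by
  induction s with
  | zero => simp [Ns_zero] at h
  | succ s ih =>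
    rw [Ns_succ] at h ⊢
    unfold nstep at h ⊢
    split_ifs at h ⊢ with h1 h2 h3 h4
    · simp at h
    · obtain ⟨a, ha, ha'⟩ := ih h
      exact ⟨a, avail_mono (Nat.le_succ s) (fun _ h => h) ha, ha'⟩
    · simp at h
    · obtain ⟨a, _, ha, ha'⟩ := h4 n h
      exact ⟨a, avail_mono (Nat.le_succ s) (fun _ h => h) ha, ha'⟩
    · obtain ⟨a, ha, ha'⟩ := ih h
      exact ⟨a, avail_mono (Nat.le_succ s) (fun _ h => h) ha, ha'⟩

/-- Requirement `e` is never injured from stage `s1` on. -/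
def Quiet (e s1 : ℕ) : Prop := ∀ s ≥ s1, ∀ x ∈ (Ns s e).2, x ∉ Dl s

theorem exists_quiet (e : ℕ) : ∃ s1, Quiet e s1 := by
  obtain ⟨s0, hs0⟩ := eventually_atTop.mp (col_stable e)
  refine ⟨s0 + 1, fun s hs x hx hxD => ?_⟩
  obtain ⟨t, rfl⟩ : ∃ t, s = t + 1 := ⟨s - 1, by omega⟩
  have h1 : x ∉ Dl t := by
    rw [Ns_succ] at hx
    exact nstep_disj hx
  rcases (mem_Dl_succ _ _).mp hxD with h | h
  · exact h1 h
  · by_cases hc : aN x ≤ e
    · exact h1 (hs0 t (by omega) x hc hxD)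
    · exact h.2.2 e (by omega) hx

theorem frozen {e s1 s : ℕ} (hq : Quiet e s1) (hs : s ≥ s1) (hi : incons e s (Ns s e).2) :
    ∀ t ≥ s, Ns t e = Ns s e := by
  intro t ht
  induction ht with
  | refl => rfl
  | @step t ht ih =>
    rw [Ns_succ]
    unfold nstep
    rw [if_neg, if_pos, ih]
    · rw [ih]
      exact incons_mono ht hi
    · rintro ⟨x, hx, hxD⟩
      exact hq t (le_trans hs ht) x hx hxD

/-- No inconsistency is ever seen from stage `s1` on. -/
def Cons (e s1 : ℕ) : Prop :=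
  ∀ s ≥ s1, ¬ incons e s (Ns s e).2 ∧ ¬ incons e s (free s (Dl s) 0)

theorem cons_of_not {e s1 : ℕ} (hq : Quiet e s1) (h : ∀ s ≥ s1, ¬ incons e s (Ns s e).2) :
    Cons e s1 := by
  intro s hs
  refine ⟨h s hs, fun hi => h (s + 1) (by omega) ?_⟩
  rw [Ns_succ]
  unfold nstep
  rw [if_neg, if_neg (h s hs), if_pos hi]
  · exact incons_mono (Nat.le_succ s) hi
  · rintro ⟨x, hx, hxD⟩
    exact hq s hs x hx hxD

theorem cons_step {e s1 s : ℕ} (hq : Quiet e s1) (hc : Cons e s1) (hs : s ≥ s1) :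
    Ns (s + 1) e = if tot e s (free s (Dl s) (Ns s e).1) (Ns s e).1 then
      ((Ns s e).1 + 1, free s (Dl s) (Ns s e).1) else Ns s e := by
  rw [Ns_succ]
  unfold nstep
  rw [if_neg, if_neg (hc s hs).1, if_neg (hc s hs).2]
  rintro ⟨x, hx, hxD⟩
  exact hq s hs x hx hxD

theorem level_mono {e s1 s t : ℕ} (hq : Quiet e s1) (hc : Cons e s1) (hs : s ≥ s1) (ht : s ≤ t) :
    (Ns s e).1 ≤ (Ns t e).1 := by
  induction ht with
  | refl => exact le_rfl
  | @step t ht ih =>
    rw [cons_step hq hc (le_trans hs ht)]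
    split_ifs
    · exact ih.trans (Nat.le_succ _)
    · exact ih

theorem const_of_not_tot {e s1 t : ℕ} (hq : Quiet e s1) (hc : Cons e s1) (ht : t ≥ s1)
    (h : ∀ s ≥ t, ¬ tot e s (free s (Dl s) (Ns s e).1) (Ns s e).1) :
    ∀ s ≥ t, Ns s e = Ns t e := by
  intro s hs
  induction hs with
  | refl => rfl
  | @step s hs ih => rw [cons_step hq hc (le_trans ht hs), if_neg (h s hs), ih]

theorem level_unbounded {e s1 : ℕ} (hq : Quiet e s1) (hc : Cons e s1)
    (h : ∀ t, ∃ s ≥ t, tot e s (free s (Dl s) (Ns s e).1) (Ns s e).1) (n : ℕ) :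
    ∃ s ≥ s1, n ≤ (Ns s e).1 := by
  induction n with
  | zero => exact ⟨s1, le_rfl, Nat.zero_le _⟩
  | succ n ih =>
    obtain ⟨s, hs, hn⟩ := ih
    obtain ⟨t, ht, htot⟩ := h s
    refine ⟨t + 1, by omega, ?_⟩
    rw [cons_step hq hc (le_trans hs ht), if_pos htot]
    exact Nat.succ_le_succ (hn.trans (level_mono hq hc hs ht))

theorem restraint_finite (e : ℕ) : ∃ b, ∀ x ≥ b, x ∈ EE → ∀ᶠ s in atTop, x ∉ (Ns s e).2 := by
  obtain ⟨s1, hq⟩ := exists_quiet e
  have hconst : ∀ t, (∀ s ≥ t, Ns s e = Ns t e) →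
      ∃ b, ∀ x ≥ b, x ∈ EE → ∀ᶠ s in atTop, x ∉ (Ns s e).2 := by
    intro t ht
    refine ⟨t, fun x hx _ => ?_⟩
    filter_upwards [eventually_ge_atTop t] with s hs hxs
    rw [ht s hs] at hxs
    exact absurd (Ns_bound hxs) (by omega)
  by_cases hA : ∃ s ≥ s1, incons e s (Ns s e).2
  · obtain ⟨s, hs, hi⟩ := hA
    exact hconst s (frozen hq hs hi)
  push Not at hA
  have hc := cons_of_not hq hA
  by_cases hB : ∀ t, ∃ s ≥ t, tot e s (free s (Dl s) (Ns s e).1) (Ns s e).1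
  · refine ⟨0, fun x _ hx => ?_⟩
    obtain ⟨t0, ht0⟩ := hx
    obtain ⟨t1, ht1, hl⟩ := level_unbounded hq hc hB (x + 1)
    obtain ⟨s, hs, htot⟩ := hB (max t0 t1)
    have hs0 : t0 ≤ s := le_trans (le_max_left _ _) hs
    have hs1 : t1 ≤ s := le_trans (le_max_right _ _) hs
    have key : ∀ t ≥ s, x ∉ free t (Dl t) (Ns t e).1 := by
      intro t ht hx
      refine (mem_free.mp hx).2.2 ⟨?_, inE_mono (hs0.trans ht) ht0⟩
      exact lt_of_lt_of_le (Nat.lt_succ_self x) (hl.trans (level_mono hq hc ht1 (hs1.trans ht)))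
    refine eventually_atTop.mpr ⟨s + 1, fun t ht => ?_⟩
    induction ht with
    | refl =>
      rw [cons_step hq hc (le_trans ht1 hs1), if_pos htot]
      exact key s le_rfl
    | @step t ht ih =>
      have ht' : s ≤ t := le_trans (Nat.le_succ s) ht
      rw [cons_step hq hc (le_trans ht1 (hs1.trans ht'))]
      split_ifs
      · exact key t ht'
      · exact ih
  · push Not at hB
    obtain ⟨t, ht⟩ := hB
    exact hconst (max t s1) (const_of_not_tot hq hc (le_max_right _ _)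
      fun s hs => ht s (le_trans (le_max_left _ _) hs))

theorem req_R (j : ℕ) (hj : ∀ x, aN x = j → x ∈ EE) : ∃ y ∈ DD, aN y = j := by
  by_contra hno
  push Not at hno
  choose b hb using restraint_finite
  let B := (Finset.range j).sup b
  let x := Nat.pair j B
  have hxj : aN x = j := by simp [x, aN]
  have hxE := hj x hxj
  have h1 : ∀ᶠ s in atTop, ∀ e ∈ Finset.range j, x ∉ (Ns s e).2 := by
    rw [eventually_all_finset]
    intro e he
    exact hb e x (le_trans (Finset.le_sup (f := b) he) (Nat.right_le_pair j B)) hxE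
  obtain ⟨t0, ht0⟩ := hxE
  obtain ⟨t1, ht1⟩ := eventually_atTop.mp h1
  refine hno x ⟨max t0 t1 + 1, (mem_Dl_succ _ _).mpr (Or.inr ⟨?_, ?_, ?_⟩)⟩ hxj
  · exact inE_mono (le_max_left _ _) ht0
  · intro y hy
    rw [hxj]
    exact hno y ⟨_, hy⟩
  · intro e he
    rw [hxj] at he
    exact ht1 _ (by omega) e (Finset.mem_range.mpr he)

/-- No r.e. set lies between the complement of `EE` and the complement of `DD`. -/
theorem no_re_between {P : ℕ → Prop} (hP : REPred P) (h1 : ∀ x, x ∉ EE → P x) :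
    ∃ x ∈ DD, P x := by
  obtain ⟨j, hj⟩ := ax_univ hP
  have h2 : ∀ x, aN x = j → (P x ↔ x ∈ EE) := by
    intro x hx
    rw [hj]
    simp [EE, inE, hx]
  obtain ⟨y, hy, hyj⟩ := req_R j fun x hx => by
    by_contra hn
    exact hn ((h2 x hx).mp (h1 x hn))
  exact ⟨y, hy, (h2 y hyj).mpr (DD_subset_EE hy)⟩

theorem eventually_avail {e a l : ℕ} (h : Op e (DDᶜ \ (EE ∩ Set.Iio l)) a) :
    ∀ᶠ s in atTop, a < s ∧ avail e s (free s (Dl s) l) a := by
  obtain ⟨⟨t, ht⟩, hU⟩ := h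
  have h1 : ∀ᶠ s in atTop, ∀ x ∈ (aU a).toFinset, x < s :=
    (eventually_all_finset _).mpr fun x _ => eventually_gt_atTop x
  filter_upwards [h1, eventually_ge_atTop t] with s hs hst
  refine ⟨ax_lt (ax_mono hst ht), ax_mono hst ht, fun x hx => mem_free.mpr
    ⟨hs x (List.mem_toFinset.mpr hx), fun hD => (hU x hx).1 ⟨s, hD⟩,
      fun hE => (hU x hx).2 ⟨⟨s, hE.2⟩, hE.1⟩⟩⟩

theorem req_N (e : ℕ) (hsv : ∀ a b, Op e DDᶜ a → Op e DDᶜ b → aN a = aN b → aV a = aV b)
    (htot : ∀ l n, ∃ a, Op e (DDᶜ \ (EE ∩ Set.Iio l)) a ∧ aN a = n) :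
    ∃ f : ℕ → ℕ, Computable f ∧ ∀ a, Op e DDᶜ a → f (aN a) = aV a := by
  obtain ⟨s1, hq⟩ := exists_quiet e
  have hA : ∀ s ≥ s1, ¬ incons e s (Ns s e).2 := by
    intro s hs hi
    have hf := frozen hq hs hi
    have hU : ∀ x ∈ (Ns s e).2, x ∈ DDᶜ := by
      rintro x hx ⟨t, ht⟩
      refine hq (max s t) (le_trans hs (le_max_left _ _)) x ?_ (Dl_mono (le_max_right _ _) ht)
      rw [hf _ (le_max_left _ _)]
      exact hx
    obtain ⟨a, _, b, _, ha, hb, hn, hv⟩ := hi
    exact hv (hsv a b ⟨⟨s, ha.1⟩, fun x hx => hU x (ha.2 x hx)⟩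
      ⟨⟨s, hb.1⟩, fun x hx => hU x (hb.2 x hx)⟩ hn)
  have hc := cons_of_not hq hA
  have hB : ∀ t, ∃ s ≥ t, tot e s (free s (Dl s) (Ns s e).1) (Ns s e).1 := by
    by_contra hB
    push Not at hB
    obtain ⟨t, ht⟩ := hB
    have hk := const_of_not_tot hq hc (le_max_right t s1)
      fun s hs => ht s (le_trans (le_max_left _ _) hs)
    set l := (Ns (max t s1) e).1 with hl
    have h1 : ∀ᶠ s in atTop, ∀ n ∈ Finset.range (l + 1),
        ∃ a < s, avail e s (free s (Dl s) l) a ∧ aN a = n := by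
      rw [eventually_all_finset]
      intro n _
      obtain ⟨a, ha, han⟩ := htot l n
      filter_upwards [eventually_avail ha] with s hs
      exact ⟨a, hs.1, hs.2, han⟩
    obtain ⟨s, hs1, hs2⟩ := (h1.and (eventually_ge_atTop (max t s1))).exists
    apply ht s (le_trans (le_max_left _ _) hs2)
    rw [hk s hs2]
    exact fun n hn => hs1 n (Finset.mem_range.mpr hn)
  have hsub : ∀ s ≥ s1, ∀ x ∈ (Ns s e).2, x ∈ free s (Dl s) 0 := fun s hs x hx =>
    mem_free.mpr ⟨Ns_bound hx, hq s hs x hx, by simp⟩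
  have hagree : ∀ s ≥ s1, ∀ a b, avail e s (free s (Dl s) 0) a → avail e s (free s (Dl s) 0) b →
      aN a = aN b → aV a = aV b := by
    intro s hs a b ha hb hn
    by_contra hv
    exact (hc s hs).2 ⟨a, ax_lt ha.1, b, ax_lt hb.1, ha, hb, hn, hv⟩
  have hchain : ∀ s ≥ s1, ∀ a, avail e s (Ns s e).2 a → aN a < (Ns s e).1 → ∀ t ≥ s,
      ∃ b, avail e t (Ns t e).2 b ∧ aN b = aN a ∧ aV b = aV a := by
    intro s hs a ha hl t ht
    induction ht with
    | refl => exact ⟨a, ha, rfl, rfl⟩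
    | @step t ht ih =>
      obtain ⟨b, hb, hbn, hbv⟩ := ih
      have hts : t ≥ s1 := le_trans hs ht
      rw [cons_step hq hc hts]
      split_ifs with hT
      · obtain ⟨c, _, hc1, hc2⟩ := hT (aN a)
          (lt_of_lt_of_le hl ((level_mono hq hc hs ht).trans (Nat.le_succ _)))
        refine ⟨c, avail_mono (Nat.le_succ t) (fun _ h => h) hc1, hc2, ?_⟩
        rw [← hbv]
        refine hagree t hts c b (avail_mono le_rfl (fun x hx => ?_) hc1)
          (avail_mono le_rfl (hsub t hts) hb) (hc2.trans hbn.symm)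
        have := mem_free.mp hx
        exact mem_free.mpr ⟨this.1, this.2.1, by simp⟩
      · exact ⟨b, avail_mono (Nat.le_succ t) (fun _ h => h) hb, hbn, hbv⟩
  let P : ℕ → ℕ → Prop := fun n m => s1 ≤ (Nat.unpair m).1 ∧ n < (Ns (Nat.unpair m).1 e).1 ∧
    avail e (Nat.unpair m).1 (Ns (Nat.unpair m).1 e).2 (Nat.unpair m).2 ∧ aN (Nat.unpair m).2 = n
  have hP : PrimrecPred fun p : ℕ × ℕ => P p.1 p.2 :=
    (pp_le (by fun_prop) (by fun_prop)).and ((pp_lt (by fun_prop) (by fun_prop)).and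
      ((pp_avail (by fun_prop) (by fun_prop) (by fun_prop) (by fun_prop)).and
        (pp_eq (by fun_prop) (by fun_prop))))
  have hex : ∀ n, ∃ m, P n m := by
    intro n
    obtain ⟨s, hs, hn⟩ := level_unbounded hq hc hB (n + 1)
    obtain ⟨a, ha, han⟩ := Ns_inv (e := e) (s := s) (n := n) hn
    refine ⟨Nat.pair s a, ?_⟩
    simp only [P, Nat.unpair_pair]
    exact ⟨hs, hn, ha, han⟩
  refine ⟨fun n => aV (Nat.unpair (Nat.find (hex n))).2, ?_, fun c hc' => ?_⟩
  · have h1 : Primrec fun m : ℕ => aV (Nat.unpair m).2 := by fun_prop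
    exact h1.to_comp.comp (Computable.find hP.computablePred hex)
  · obtain ⟨h1, h2, h3, h4⟩ := Nat.find_spec (hex (aN c))
    set s := (Nat.unpair (Nat.find (hex (aN c)))).1
    set a := (Nat.unpair (Nat.find (hex (aN c)))).2
    have hc2 : Op e (DDᶜ \ (EE ∩ Set.Iio 0)) c := ⟨hc'.1, fun x hx => ⟨hc'.2 x hx, by simp⟩⟩
    obtain ⟨t, ht1, ht2⟩ := ((eventually_avail hc2).and (eventually_ge_atTop s)).exists
    obtain ⟨b, hb, hbn, hbv⟩ := hchain s h1 a h3 (h4 ▸ h2) t ht2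
    have hts : t ≥ s1 := le_trans h1 ht2
    show aV a = aV c
    rw [← hbv]
    exact hagree t hts b c (avail_mono le_rfl (hsub t hts) hb) ht1.2 (hbn.trans h4)

end Pool.Agent.MP_9a65c4_lc

end

section

namespace Pool.Agent.MP_9a65c4_lc

open Filter Classical
open Nat.Partrec (Code)

def Cont (τ : List ℕ) (Z : Set ℕ) : Prop := ∀ k, k + 1 ∈ τ → k ∈ Z

def Gc (c : Code) (τ : List ℕ) (n : ℕ) : Part ℕ := c.eval (Nat.pair (Encodable.encode τ) n)

def Gr (c : Code) (Z : Set ℕ) (n v : ℕ) : Prop := ∃ τ, Cont τ Z ∧ v ∈ Gc c τ n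

theorem Gr.mono {c : Code} {Z Z' : Set ℕ} {n v : ℕ} (h : Gr c Z n v) (hZ : Z ⊆ Z') :
    Gr c Z' n v := by
  obtain ⟨τ, h1, h2⟩ := h
  exact ⟨τ, fun k hk => hZ (h1 k hk), h2⟩

theorem exists_Gc {G : List ℕ → ℕ →. ℕ} (hG : Partrec₂ G) : ∃ c, ∀ τ n, G τ n = Gc c τ n := by
  have h1 : Partrec fun m : ℕ => G (Denumerable.ofNat (List ℕ) (Nat.unpair m).1) (Nat.unpair m).2 :=
    hG.comp (Primrec.to_comp (by fun_prop)) (Primrec.to_comp (by fun_prop))
  obtain ⟨c, hc⟩ := Code.exists_code.mp (Partrec.nat_iff.mp h1)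
  exact ⟨c, fun τ n => by simp [Gc, hc]⟩

def Valid (q : Finset ℕ × Finset ℕ) : Prop :=
  (∀ x ∈ q.1, x ∉ DD) ∧ (∀ x ∈ q.2, x ∈ EE) ∧ ∀ x ∈ q.1, x ∉ q.2

def Good (c : Code) (q : Finset ℕ × Finset ℕ) : Prop :=
  ∀ B : Set ℕ, (∀ x ∈ q.1, x ∈ B) → (∀ x ∈ B, x ∉ DD ∧ x ∉ q.2) →
    ∀ y : ℕ → ℕ, (∀ n v, Gr c B n v ↔ v = y n) → Computable y

theorem exists_op (c : Code) (F1 F0 : Finset ℕ) : ∃ e, ∀ Z : Set ℕ, ∀ n v,
    Gr c ((Z \ ↑F0) ∪ ↑F1) n v ↔ ∃ a, Op e Z a ∧ aN a = n ∧ aV a = v := by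
  let Q : ℕ → Prop := fun a => ∀ y ∈ aJ a, y = 0 ∨ y - 1 ∈ F1.toList ∨
    (y - 1 ∈ aU a ∧ ¬ y - 1 ∈ F0.toList)
  have hQ : PrimrecPred Q :=
    pp_all_mem (by fun_prop) ((pp_eq (by fun_prop) (by fun_prop)).or
      ((pp_mem (by fun_prop) (by fun_prop)).or
        ((pp_mem (by fun_prop) (by fun_prop)).and (pp_mem (by fun_prop) (by fun_prop)).not)))
  have h1 : Partrec fun a => Gc c (aJ a) (aN a) :=
    (Partrec.nat_iff.mpr (Code.exists_code.mpr ⟨c, rfl⟩)).comp
      (Primrec.to_comp (f := fun a => Nat.pair (Encodable.encode (aJ a)) (aN a)) (by fun_prop))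
  have h2 : Primrec fun p : ℕ × ℕ => if Q p.1 ∧ p.2 = aV p.1 then some () else none :=
    Primrec.ite ((hQ.comp Primrec.fst).and (pp_eq (by fun_prop) (by fun_prop)))
      (Primrec.const _) (Primrec.const _)
  have h3 : Partrec fun a => (Gc c (aJ a) (aN a)).bind fun w =>
      ((if Q a ∧ w = aV a then some () else none : Option Unit) : Part Unit) :=
    h1.bind (Computable.ofOption h2.to_comp)
  have h4 : REPred fun a => Q a ∧ aV a ∈ Gc c (aJ a) (aN a) := by
    refine h3.dom_re.of_eq fun a => ?_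
    rw [Part.dom_iff_mem]
    constructor
    · rintro ⟨u, hu⟩
      obtain ⟨w, hw, hu⟩ := Part.mem_bind_iff.mp hu
      split_ifs at hu with h
      · exact ⟨h.1, h.2 ▸ hw⟩
      · simp at hu
    · rintro ⟨h, h'⟩
      exact ⟨(), Part.mem_bind_iff.mpr ⟨_, h', by simp [h]⟩⟩
  obtain ⟨e, he⟩ := ax_univ h4
  refine ⟨e, fun Z n v => ⟨?_, ?_⟩⟩
  · rintro ⟨τ, hτ, hv⟩
    obtain ⟨a, ha1, ha2, ha3, ha4⟩ :=
      exists_code4 n v ((τ.map fun y => y - 1).filter fun k => decide (k ∈ Z)) τ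
    refine ⟨a, ⟨(he a).mp ⟨?_, by rw [ha1, ha2, ha4]; exact hv⟩, ?_⟩, ha1, ha2⟩
    · intro y hy
      rw [ha4] at hy
      rcases y with _ | k
      · exact Or.inl rfl
      · right
        rcases hτ k hy with h | h
        · right
          rw [ha3]
          refine ⟨List.mem_filter.mpr ⟨List.mem_map.mpr ⟨k + 1, hy, rfl⟩, ?_⟩, ?_⟩
          · simpa using h.1
          · simpa using h.2
        · left
          simpa using h
    · intro x hx
      rw [ha3] at hx
      simpa using (List.mem_filter.mp hx).2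
  · rintro ⟨a, ⟨h5, h6⟩, rfl, rfl⟩
    obtain ⟨h7, h8⟩ := (he a).mpr h5
    refine ⟨aJ a, fun k hk => ?_, h8⟩
    rcases h7 _ hk with h | h | h
    · simp at h
    · right
      simpa using h
    · left
      exact ⟨h6 _ (by simpa using h.1), by simpa using h.2⟩

theorem dense_good (c : Code) (p : Finset ℕ × Finset ℕ) (hp : Valid p) :
    ∃ q, Valid q ∧ p.1 ⊆ q.1 ∧ p.2 ⊆ q.2 ∧ Good c q := by
  obtain ⟨F1, F0⟩ := p
  obtain ⟨hp1, hp2, hp3⟩ := hp
  simp only at hp1 hp2 hp3 ⊢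
  by_cases h1 : ∃ n v v', v ≠ v' ∧ Gr c (DDᶜ \ ↑F0) n v ∧ Gr c (DDᶜ \ ↑F0) n v'
  · obtain ⟨n, v, v', hv, ⟨τ, hτ, hτ'⟩, ⟨σ, hσ, hσ'⟩⟩ := h1
    let C : Finset ℕ := (((τ ++ σ).toFinset).image fun y => y - 1).filter fun k => k + 1 ∈ τ ++ σ
    have hC : ∀ k, k ∈ C ↔ k + 1 ∈ τ ∨ k + 1 ∈ σ := by
      intro k
      simp only [C, Finset.mem_filter, Finset.mem_image, List.mem_toFinset, List.mem_append]
      exact ⟨fun h => h.2, fun h => ⟨⟨k + 1, h, rfl⟩, h⟩⟩
    have hC2 : ∀ k ∈ C, k ∉ DD ∧ k ∉ F0 := by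
      intro k hk
      rcases (hC k).mp hk with h | h
      · exact hτ k h
      · exact hσ k h
    refine ⟨(F1 ∪ C, F0), ⟨?_, hp2, ?_⟩, Finset.subset_union_left, subset_rfl, ?_⟩
    · intro x hx
      rcases Finset.mem_union.mp hx with h | h
      · exact hp1 x h
      · exact (hC2 x h).1
    · intro x hx
      rcases Finset.mem_union.mp hx with h | h
      · exact hp3 x h
      · exact (hC2 x h).2
    · intro B hB1 _ y hy
      exfalso
      apply hv
      rw [(hy n v).mp ⟨τ, fun k hk => hB1 k (Finset.mem_union_right _ ((hC k).mpr (Or.inl hk))),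
        hτ'⟩, (hy n v').mp ⟨σ, fun k hk =>
          hB1 k (Finset.mem_union_right _ ((hC k).mpr (Or.inr hk))), hσ'⟩]
  by_cases h2 : ∃ l n, ∀ v, ¬ Gr c (((DDᶜ \ (EE ∩ Set.Iio l)) \ ↑F0) ∪ ↑F1) n v
  · obtain ⟨l, n, hn⟩ := h2
    refine ⟨(F1, F0 ∪ ((Finset.range l).filter fun x => x ∈ EE ∧ x ∉ F1)), ⟨hp1, ?_, ?_⟩,
      subset_rfl, Finset.subset_union_left, ?_⟩
    · intro x hx
      rcases Finset.mem_union.mp hx with h | h
      · exact hp2 x h
      · exact (Finset.mem_filter.mp h).2.1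
    · intro x hx hx'
      rcases Finset.mem_union.mp hx' with h | h
      · exact hp3 x hx h
      · exact (Finset.mem_filter.mp h).2.2 hx
    · intro B _ hB2 y hy
      exfalso
      refine hn (y n) (((hy n (y n)).mpr rfl).mono fun x hx => ?_)
      by_cases hx1 : x ∈ F1
      · exact Or.inr hx1
      · obtain ⟨h3, h4⟩ := hB2 x hx
        refine Or.inl ⟨⟨h3, fun h5 => h4 (Finset.mem_union_right _ ?_)⟩,
          fun h5 => h4 (Finset.mem_union_left _ h5)⟩
        exact Finset.mem_filter.mpr ⟨Finset.mem_range.mpr h5.2, h5.1, hx1⟩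
  push Not at h1 h2
  obtain ⟨e, he⟩ := exists_op c F1 F0
  have hsub : (DDᶜ \ ↑F0) ∪ ↑F1 ⊆ DDᶜ \ (↑F0 : Set ℕ) := by
    rintro x (h | h)
    · exact h
    · exact ⟨hp1 x h, hp3 x h⟩
  obtain ⟨f, hf, hf'⟩ := req_N e (fun a b ha hb hab => by
      by_contra hv
      exact h1 (aN a) (aV a) (aV b) hv (((he _ _ _).mpr ⟨a, ha, rfl, rfl⟩).mono hsub)
        (((he _ _ _).mpr ⟨b, hb, hab.symm, rfl⟩).mono hsub))
    (fun l n => by
      obtain ⟨v, hv⟩ := h2 l n
      obtain ⟨a, ha, han, _⟩ := (he _ _ _).mp hv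
      exact ⟨a, ha, han⟩)
  refine ⟨(F1, F0), ⟨hp1, hp2, hp3⟩, subset_rfl, subset_rfl, fun B _ hB2 y hy => ?_⟩
  refine hf.of_eq fun n => ?_
  obtain ⟨a, ha, han, hav⟩ := (he DDᶜ n (y n)).mp
    (((hy n (y n)).mpr rfl).mono fun x hx => Or.inl (hB2 x hx))
  rw [← hav, ← han]
  exact hf' a ha

theorem exists_name_extending {B : Set ℕ} {τ : List ℕ} (hτ : Cont τ B) :
    ∃ p ∈ enumNames B, pre p τ.length = τ := by
  refine ⟨fun i => if h : i < τ.length then τ[i] else
    if i - τ.length ∈ B then i - τ.length + 1 else 0, ?_, ?_⟩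
  · ext k
    constructor
    · intro hk
      refine ⟨τ.length + k, ?_⟩
      simp [hk]
    · rintro ⟨n, hn⟩
      simp only at hn
      split_ifs at hn with h1 h2
      · exact hτ k (hn ▸ List.getElem_mem h1)
      · have : n - τ.length = k := by omega
        exact this ▸ h2
  · apply List.ext_getElem?
    intro n
    rw [pre_getElem?]
    split_ifs with h
    · simp
    · simp [not_lt.mp h]

theorem cont_pre {B : Set ℕ} {p : ℕ → ℕ} (hp : p ∈ enumNames B) (k : ℕ) : Cont (pre p k) B := by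
  intro j hj
  obtain ⟨i, _, hi⟩ := List.mem_map.mp hj
  have : B = {k | ∃ n, p n = k + 1} := hp
  rw [this]
  exact ⟨i, hi⟩

theorem exists_generic : ∃ B : Set ℕ, EEᶜ ⊆ B ∧ B ⊆ DDᶜ ∧
    ∀ y : ℕ → ℕ, Reduces {y} (enumNames B) → Computable y := by
  choose nxt hnxt using dense_good
  let seq : ℕ → {p // Valid p} := fun k => Nat.rec ⟨(∅, ∅), by simp [Valid]⟩
    (fun k p => ⟨nxt (Denumerable.ofNat Code k) p.1 p.2, (hnxt _ _ _).1⟩) k
  have hseq : ∀ k, (seq (k + 1)).1 = nxt (Denumerable.ofNat Code k) (seq k).1 (seq k).2 :=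
    fun k => rfl
  have hm1 : Monotone fun k => (seq k).1.1 :=
    monotone_nat_of_le_succ fun k => by rw [hseq]; exact (hnxt _ _ _).2.1
  have hm2 : Monotone fun k => (seq k).1.2 :=
    monotone_nat_of_le_succ fun k => by rw [hseq]; exact (hnxt _ _ _).2.2.1
  refine ⟨{x | x ∉ DD ∧ ∀ k, x ∉ (seq k).1.2}, ?_, fun x hx => hx.1, ?_⟩
  · intro x hx
    exact ⟨fun h => hx (DD_subset_EE h), fun k h => hx ((seq k).2.2.1 x h)⟩
  · rintro y ⟨F, hF, hFy⟩
    obtain ⟨G, hG⟩ := exists_approx hF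
    obtain ⟨c, hc⟩ := exists_Gc hG.part
    have hgood : Good c (seq (Encodable.encode c + 1)).1 := by
      rw [hseq, Denumerable.ofNat_encode]
      exact (hnxt _ _ _).2.2.2
    refine hgood {x | x ∉ DD ∧ ∀ k, x ∉ (seq k).1.2} ?_ (fun x hx => ⟨hx.1, hx.2 (Encodable.encode c + 1)⟩) y
      fun n v => ⟨?_, ?_⟩
    · intro x hx
      refine ⟨(seq (Encodable.encode c + 1)).2.1 x hx, fun k hk => ?_⟩
      exact (seq (max k (Encodable.encode c + 1))).2.2.2 x (hm1 (le_max_right _ _) hx)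
        (hm2 (le_max_left _ _) hk)
    · rintro ⟨τ, hτ, hv⟩
      obtain ⟨p, hp, hpτ⟩ := exists_name_extending hτ
      obtain ⟨q, rfl, hq⟩ := hFy p hp
      rw [← hc, ← hpτ] at hv
      exact Part.mem_unique (hG.sound _ _ _ _ hv) (hq n)
    · rintro rfl
      obtain ⟨p, hp, _⟩ := exists_name_extending (τ := [])
        (B := {x | x ∉ DD ∧ ∀ k, x ∉ (seq k).1.2}) (fun k hk => by simp at hk)
      obtain ⟨q, rfl, hq⟩ := hFy p hp
      obtain ⟨k, hk⟩ := (hG.complete _ _ _ (hq n)).exists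
      exact ⟨pre p k, cont_pre hp k, hc _ _ ▸ hk⟩

end Pool.Agent.MP_9a65c4_lc

end

section

namespace Pool.Agent.MP_9a65c4_lc

open Filter Classical

/-- The functional. -/
noncomputable def Phi (f : ℕ → ℕ) : ℕ :=
  if ∃ n, ¬ inE n (f 0) ∧ f 0 ∈ Dl (f (n + 1)) then 1 else 0

/-- The associate of `Phi` computed from a finite part `τ` of an enumeration. -/
noncomputable def assocFin (c : ℕ) (τ : List ℕ) : ℕ :=
  if (Denumerable.ofNat (List ℕ) c).length = 0 then 0
  else if inE ((Denumerable.ofNat (List ℕ) c).length - 1)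
      ((Denumerable.ofNat (List ℕ) c).getD 0 0) then
    (if ∃ n < (Denumerable.ofNat (List ℕ) c).length - 1,
      ¬ inE n ((Denumerable.ofNat (List ℕ) c).getD 0 0) ∧
        (Denumerable.ofNat (List ℕ) c).getD 0 0 ∈
          Dl ((Denumerable.ofNat (List ℕ) c).getD (n + 1) 0) then 2 else 1)
  else if (Denumerable.ofNat (List ℕ) c).getD 0 0 + 1 ∈ τ then 1 else 0

theorem pr_assocFin : Primrec₂ assocFin := by
  unfold assocFin Primrec₂
  refine Primrec.ite (pp_eq (by fun_prop) (by fun_prop)) (by fun_prop) ?_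
  refine Primrec.ite (pp_inE (by fun_prop) (by fun_prop)) ?_ ?_
  · refine Primrec.ite (pp_ex_lt (by fun_prop) ?_) (by fun_prop) (by fun_prop)
    exact (pp_inE (by fun_prop) (by fun_prop)).not.and (pp_mem (by fun_prop) (by fun_prop))
  · exact Primrec.ite (pp_mem (by fun_prop) (by fun_prop)) (by fun_prop) (by fun_prop)

theorem pre_getD (f : ℕ → ℕ) {m i : ℕ} (h : i < m) : (pre f m).getD i 0 = f i := by
  rw [List.getD_eq_getElem?_getD, pre_getElem?, if_pos h]
  rfl

theorem assocFin_succ (f : ℕ → ℕ) (m : ℕ) (τ : List ℕ) :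
    assocFin (Encodable.encode (pre f (m + 1))) τ =
      if inE m (f 0) then Phi f + 1 else if f 0 + 1 ∈ τ then 1 else 0 := by
  unfold assocFin
  rw [Denumerable.ofNat_encode, pre_length, if_neg (Nat.succ_ne_zero m), Nat.add_sub_cancel,
    pre_getD f (Nat.succ_pos m)]
  by_cases h : inE m (f 0)
  · rw [if_pos h, if_pos h]
    unfold Phi
    have : (∃ n < m, ¬ inE n (f 0) ∧ f 0 ∈ Dl ((pre f (m + 1)).getD (n + 1) 0)) ↔
        ∃ n, ¬ inE n (f 0) ∧ f 0 ∈ Dl (f (n + 1)) := by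
      constructor
      · rintro ⟨n, hn, h1, h2⟩
        rw [pre_getD f (by omega)] at h2
        exact ⟨n, h1, h2⟩
      · rintro ⟨n, h1, h2⟩
        have hn : n < m := by
          by_contra hn
          exact h1 (inE_mono (not_lt.mp hn) h)
        exact ⟨n, hn, h1, by rwa [pre_getD f (by omega)]⟩
    by_cases h5 : ∃ n, ¬ inE n (f 0) ∧ f 0 ∈ Dl (f (n + 1))
    · rw [if_pos (this.mpr h5), if_pos h5]
    · rw [if_neg (fun h6 => h5 (this.mp h6)), if_neg h5]
  · rw [if_neg h, if_neg h]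

theorem Phi_reduces {B : Set ℕ} (h1 : EEᶜ ⊆ B) (h2 : B ⊆ DDᶜ) :
    Reduces (associates Phi) (enumNames B) := by
  have hb : Primrec fun c => (Denumerable.ofNat (List ℕ) c).length := by fun_prop
  refine ⟨_, tf_bounded pr_assocFin.to_comp hb.to_comp, fun p hp => ⟨_, ?_, fun n =>
    Part.mem_some _⟩⟩
  have hB : B = {k | ∃ n, p n = k + 1} := hp
  intro f
  have hex : ∃ m, inE m (f 0) ∨ f 0 + 1 ∈ pre p (m + 1) := by
    by_cases hE : f 0 ∈ EE
    · obtain ⟨s, hs⟩ := hE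
      exact ⟨s, Or.inl hs⟩
    · have := h1 hE
      rw [hB] at this
      obtain ⟨n, hn⟩ := this
      exact ⟨n, Or.inr (List.mem_map.mpr ⟨n, by simp, hn⟩)⟩
  refine ⟨Nat.find hex + 1, fun m => ?_⟩
  show assocFin (Encodable.encode (pre f m))
    (pre p (Denumerable.ofNat (List ℕ) (Encodable.encode (pre f m))).length) = _
  rw [Denumerable.ofNat_encode, pre_length]
  rcases m with _ | m
  · simp [assocFin, pre]
  rw [assocFin_succ]
  by_cases hm : m < Nat.find hex
  · have := Nat.find_min hex hm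
    push Not at this
    rw [if_neg this.1, if_neg this.2, if_pos (by omega)]
  · have hle : Nat.find hex ≤ m := not_lt.mp hm
    rw [if_neg (show ¬ m + 1 < Nat.find hex + 1 by omega)]
    by_cases hE : inE m (f 0)
    · rw [if_pos hE]
    · rw [if_neg hE]
      have h3 : f 0 + 1 ∈ pre p (m + 1) := by
        rcases Nat.find_spec hex with h | h
        · exact absurd (inE_mono hle h) hE
        · obtain ⟨i, hi, hi'⟩ := List.mem_map.mp h
          exact List.mem_map.mpr ⟨i, List.mem_range.mpr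
            (lt_of_lt_of_le (List.mem_range.mp hi) (by omega)), hi'⟩
      rw [if_pos h3]
      have h4 : f 0 ∉ DD := h2 (cont_pre hp _ _ h3)
      unfold Phi
      rw [if_neg]
      rintro ⟨n, _, hn⟩
      exact h4 ⟨_, hn⟩

theorem continuous_of_associate {Φ : (ℕ → ℕ) → ℕ} {α : ℕ → ℕ} (h : α ∈ associates Φ) :
    Continuous Φ := by
  rw [continuous_iff_continuousAt]
  intro f
  obtain ⟨k, hk⟩ := h f
  have h1 : ∀ᶠ g in nhds f, ∀ i ∈ Finset.range k, g i = f i := by
    rw [eventually_all_finset]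
    intro i _
    have h0 : Tendsto (fun g : ℕ → ℕ => g i) (nhds f) (nhds (f i)) :=
      (continuous_apply i).tendsto f
    exact h0.eventually (p := fun y => y = f i) (by simp [nhds_discrete])
  refine ContinuousAt.congr (f := fun _ => Φ f) continuousAt_const ?_
  filter_upwards [h1] with g hg
  obtain ⟨k', hk'⟩ := h g
  have h2 : (List.range k).map g = (List.range k).map f :=
    List.map_congr_left fun i hi => hg i (Finset.mem_range.mpr (List.mem_range.mp hi))
  have h3 := hk' k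
  rw [h2, hk k, if_neg (lt_irrefl k)] at h3
  split_ifs at h3
  omega

theorem assoc_eq {Φ : (ℕ → ℕ) → ℕ} {α : ℕ → ℕ} (h : α ∈ associates Φ) (f : ℕ → ℕ) (m : ℕ)
    (hm : α (Encodable.encode (pre f m)) ≠ 0) : α (Encodable.encode (pre f m)) = Φ f + 1 := by
  obtain ⟨k, hk⟩ := h f
  have := hk m
  unfold pre at hm ⊢
  split_ifs at this
  · exact absurd this hm
  · exact this

theorem Phi_not_computable : ¬ ∃ α ∈ associates Phi, Computable α := by
  rintro ⟨α, hα, hc⟩
  let z : ℕ → ℕ → ℕ := fun x i => x * (1 - i)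
  have hz : Primrec fun q : ℕ × ℕ => Encodable.encode (pre (z q.1) (q.2 + 1)) := by
    unfold pre
    refine pr_encode (pr_map (by fun_prop) ?_)
    exact Primrec.nat_mul.comp (by fun_prop) (by fun_prop)
  have hP : ComputablePred fun q : ℕ × ℕ =>
      α (Encodable.encode (pre (z q.1) (q.2 + 1))) ≠ 0 ∧ ¬ inE q.2 q.1 := by
    have h1 : PrimrecPred fun r : (ℕ × ℕ) × ℕ => ¬ r.2 = 0 ∧ ¬ inE r.1.2 r.1.1 :=
      (pp_eq (by fun_prop) (by fun_prop)).not.and (pp_inE (by fun_prop) (by fun_prop)).not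
    exact Computable.computablePred
      (h1.decide.to_comp.comp (Computable.id.pair (hc.comp hz.to_comp)))
  obtain ⟨x, ⟨t, ht⟩, m, hm1, hm2⟩ := no_re_between (re_exists
    (P := fun x m => α (Encodable.encode (pre (z x) (m + 1))) ≠ 0 ∧ ¬ inE m x) hP) (by
      intro x hx
      obtain ⟨k, hk⟩ := hα (z x)
      refine ⟨k, ?_, fun h => hx ⟨k, h⟩⟩
      unfold pre
      rw [hk, if_neg (by omega)]
      omega)
  let g : ℕ → ℕ := fun i => if i < m + 1 then z x i else t
  have hg : pre g (m + 1) = pre (z x) (m + 1) :=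
    List.map_congr_left fun i hi => if_pos (List.mem_range.mp hi)
  have h1 := assoc_eq hα (z x) (m + 1) hm1
  have h2 := assoc_eq hα g (m + 1) (hg ▸ hm1)
  have h3 : Phi (z x) = 0 := by
    unfold Phi
    rw [if_neg]
    rintro ⟨n, _, hn⟩
    simp [z, Dl_zero] at hn
  have h4 : Phi g = 1 := by
    unfold Phi
    rw [if_pos]
    refine ⟨m, ?_, ?_⟩
    · simpa [g, z] using hm2
    · simpa [g, z] using ht
  rw [hg, h1, h3, h4] at h2
  omega

theorem main : ∃ A : Set ℕ,
    (¬ REPred (· ∈ A) ∧ ∀ y : ℕ → ℕ, Reduces {y} (enumNames A) → Computable y) ∧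
    ∃ Φ : (ℕ → ℕ) → ℕ, Continuous Φ ∧ (¬ ∃ α ∈ associates Φ, Computable α) ∧
      Reduces (associates Φ) (enumNames A) := by
  obtain ⟨B, h1, h2, h3⟩ := exists_generic
  have hR := Phi_reduces h1 h2
  refine ⟨B, ⟨fun hB => ?_, h3⟩, Phi, ?_, Phi_not_computable, hR⟩
  · obtain ⟨x, hx, hxB⟩ := no_re_between hB fun x hx => h1 hx
    exact h2 hxB hx
  · obtain ⟨F, _, hF⟩ := hR
    obtain ⟨p, hp, _⟩ := exists_name_extending (τ := []) (B := B) (fun k hk => by simp at hk)
    obtain ⟨α, hα, _⟩ := hF p hp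
    exact continuous_of_associate hα

end Pool.Agent.MP_9a65c4_lc

end
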